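import Mathlib

namespace Pool.Agent.Results.MP_2c9a54_an.Product

/-- The product of `B (n + 2) + 1 / B n` over `n = i, i + 3, …, i + 3 (k - 1)`. -/
noncomputable def P (B : ℕ → ℝ) (k i : ℕ) : ℝ :=
  ∏ j ∈ Finset.range k, (B (i + 3 * j + 2) + 1 / B (i + 3 * j))

/-- A positive solution, with indices shifted by one. -/
def Sol (B x : ℕ → ℝ) : Prop :=
  0 < x 0 ∧ 0 < x 1 ∧ ∀ n, x (n + 2) = 1 / (B n * x (n + 1) + x n)

lemma pos {B x : ℕ → ℝ} (hB : ∀ n, 0 < B n) (h : Sol B x) (n : ℕ) : 0 < x n := by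
  have : ∀ n, 0 < x n ∧ 0 < x (n + 1) := by
    intro n
    induction n with
    | zero => exact ⟨h.1, h.2.1⟩
    | succ n ih =>
      refine ⟨ih.2, ?_⟩
      rw [h.2.2]
      have := hB n
      have := ih.1
      have := ih.2
      positivity
  exact (this n).1

lemma eqn {B x : ℕ → ℝ} (hB : ∀ n, 0 < B n) (h : Sol B x) (n : ℕ) :
    x (n + 2) * (B n * x (n + 1) + x n) = 1 := by
  have := hB n
  have := pos hB h n
  have := pos hB h (n + 1)
  rw [h.2.2]; field_simp

lemma lower {B x : ℕ → ℝ} (hB : ∀ n, 0 < B n) (h : Sol B x) (n : ℕ) (η : ℝ)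
    (h1 : η ≤ x (n + 2) * x n) (h2 : η ≤ x (n + 3) * (B (n + 1) * x (n + 2))) :
    x (n + 1) ≤ (1 - η) * (B (n + 2) + 1 / B n) * x (n + 4) := by
  have e0 := eqn hB h n
  have e1 : x (n + 3) * (B (n + 1) * x (n + 2) + x (n + 1)) = 1 := eqn hB h (n + 1)
  have e2 : x (n + 4) * (B (n + 2) * x (n + 3) + x (n + 2)) = 1 := eqn hB h (n + 2)
  have := hB n; have := hB (n + 1); have := hB (n + 2)
  have := pos hB h n; have := pos hB h (n + 1); have := pos hB h (n + 2)
  have := pos hB h (n + 3); have := pos hB h (n + 4)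
  have a1 : x (n + 2) * x (n + 1) ≤ (1 - η) * (1 / B n) := by
    rw [mul_one_div, le_div_iff₀ (hB n)]; nlinarith
  have a2 : x (n + 3) * x (n + 1) ≤ 1 - η := by nlinarith
  have a3 : (B (n + 2) * x (n + 3) + x (n + 2)) * x (n + 1) ≤
      (1 - η) * (B (n + 2) + 1 / B n) := by nlinarith
  calc x (n + 1) = x (n + 4) * ((B (n + 2) * x (n + 3) + x (n + 2)) * x (n + 1)) := by
        rw [← mul_assoc, e2, one_mul]
    _ ≤ x (n + 4) * ((1 - η) * (B (n + 2) + 1 / B n)) := by gcongr
    _ = _ := mul_comm _ _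

lemma upper {B : ℕ → ℝ} {β G θ : ℝ} (hβ : 0 < β) (h1 : ∀ n, β ≤ B n) (h2 : ∀ n, B n ≤ G)
    (hθ : 1 < θ) : ∃ K, 0 ≤ K ∧ ∀ x, Sol B x → ∀ m,
      x (m + 1 + 4) ≤ θ / (B (m + 1 + 2) + 1 / B (m + 1)) * x (m + 1 + 1) + K := by
  have hB : ∀ n, 0 < B n := fun n => hβ.trans_le (h1 n)
  have hG : 0 < G := (hB 0).trans_le (h2 0)
  have hδ : 0 < θ - 1 := by linarith
  set L := 1 + 1 / ((θ - 1) * β * β) + G / ((θ - 1) * β) with hL
  have l1 : 0 < 1 / ((θ - 1) * β * β) := by positivity
  have l2 : 0 < G / ((θ - 1) * β) := by positivity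
  have hL0 : 0 < L := by positivity
  refine ⟨G * L + 1 + (G + L) / β, by positivity, fun x h m => ?_⟩
  have em : x (m + 1 + 1) * (B m * x (m + 1) + x m) = 1 := eqn hB h m
  set n := m + 1
  have e0 := eqn hB h n
  have e1 : x (n + 3) * (B (n + 1) * x (n + 2) + x (n + 1)) = 1 := eqn hB h (n + 1)
  have e2 : x (n + 4) * (B (n + 2) * x (n + 3) + x (n + 2)) = 1 := eqn hB h (n + 2)
  have b0 := hB n; have b1 := hB (n + 1); have b2 := hB (n + 2)
  have pw := pos hB h n; have py := pos hB h (n + 1); have pa := pos hB h (n + 2)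
  have pb := pos hB h (n + 3); have pz := pos hB h (n + 4)
  have c0 := h1 n; have c2 := h1 (n + 2); have cm := h1 m
  have g0 := h2 n; have g1 := h2 (n + 1)
  have pm := mul_pos py (pos hB h m)
  have hD : 0 < B (n + 2) + 1 / B n := by positivity
  have wy : β * (x n * x (n + 1)) ≤ 1 := by nlinarith [mul_pos pw py]
  have ay : β * (x (n + 2) * x (n + 1)) ≤ 1 := by nlinarith [mul_pos pa py, mul_pos pa pw]
  generalize x n = w at *
  generalize x (n + 1) = y at *
  generalize x (n + 2) = a at *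
  generalize x (n + 3) = b at *
  generalize x (n + 4) = z at *
  by_cases hy : L ≤ y
  · have y1 : 1 ≤ y := by linarith
    have q1 : 1 ≤ y * ((θ - 1) * β * β) := by rw [← div_le_iff₀ (by positivity)]; linarith
    have q2 : G ≤ y * ((θ - 1) * β) := by rw [← div_le_iff₀ (by positivity)]; linarith
    have w1 : β * w ≤ 1 := by nlinarith [mul_pos hβ pw]
    have a1 : β * a ≤ 1 := by nlinarith [mul_pos hβ pa]
    have w2 : w ≤ (θ - 1) * (B n * y) := by
      have : w ≤ y * ((θ - 1) * β) := by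
        by_contra hc
        push Not at hc
        nlinarith
      have : y * ((θ - 1) * β) ≤ y * ((θ - 1) * B n) := by gcongr
      nlinarith
    have a2 : B (n + 1) * a ≤ (θ - 1) * y := by
      have t1 : B (n + 1) * a ≤ y * ((θ - 1) * β) * a := by gcongr; linarith
      have t2 : y * (θ - 1) * (β * a) ≤ y * (θ - 1) * 1 := by gcongr
      nlinarith
    have r1 : 1 / B n ≤ θ * y * a := by
      rw [div_le_iff₀ b0]; nlinarith [mul_le_mul_of_nonneg_left w2 pa.le]
    have r2 : 1 ≤ θ * y * b := by nlinarith [mul_le_mul_of_nonneg_left a2 pb.le]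
    have r3 : B (n + 2) + 1 / B n ≤ θ * y * (B (n + 2) * b + a) := by nlinarith
    have r4 : z * (B (n + 2) + 1 / B n) ≤ θ * y := by
      calc z * (B (n + 2) + 1 / B n) ≤ z * (θ * y * (B (n + 2) * b + a)) := by gcongr
        _ = θ * y * (z * (B (n + 2) * b + a)) := by ring
        _ = θ * y := by rw [e2, mul_one]
    have r5 : z ≤ θ / (B (n + 2) + 1 / B n) * y := by
      rw [div_mul_eq_mul_div, le_div_iff₀ hD]; exact r4
    have : 0 ≤ G * L + 1 + (G + L) / β := by positivity
    linarith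
  · push Not at hy
    have t0 : 0 ≤ θ / (B (n + 2) + 1 / B n) * y := by positivity
    have t1 : 0 ≤ (G + L) / β := by positivity
    have t2 : 0 ≤ G * L := by positivity
    have za : z * a ≤ 1 := by nlinarith [mul_pos pz (mul_pos b2 pb)]
    have zb : z * (β * b) ≤ 1 := by nlinarith [mul_pos pz pa, mul_pos pz pb]
    by_cases hw : w ≤ 1
    · have u1 : z ≤ B n * y + w := by
        calc z = z * a * (B n * y + w) := by rw [mul_assoc, e0, mul_one]
          _ ≤ 1 * (B n * y + w) := by gcongr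
          _ = _ := one_mul _
      have : B n * y ≤ G * L := by gcongr
      linarith
    · push Not at hw
      have a1 : a ≤ 1 := by nlinarith [mul_pos pa (mul_pos b0 py)]
      have u1 : z * β ≤ B (n + 1) * a + y := by
        calc z * β = z * (β * b) * (B (n + 1) * a + y) := by
              rw [mul_assoc, mul_assoc, e1, mul_one]
          _ ≤ 1 * (B (n + 1) * a + y) := by gcongr
          _ = _ := one_mul _
      have : B (n + 1) * a ≤ G * 1 := by gcongr
      have : z ≤ (G + L) / β := by rw [le_div_iff₀ hβ]; linarith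
      linarith

lemma main (k : ℕ) (hk : 0 < k) (B : ℕ → ℝ) (hB : ∀ n, 0 < B n) (hp : ∀ n, B (n + k) = B n) :
    ((∀ i, 1 < P B k i) → ∀ x, Sol B x → ∃ M, ∀ n, x n ≤ M) ∧
    ((∃ i, P B k i ≤ 1) → ∀ x, Sol B x → ¬ ∃ M, ∀ n, x n ≤ M) := by
  have hper : Function.Periodic B k := hp
  have hD : ∀ n, 0 < B (n + 2) + 1 / B n := fun n => by have := hB n; have := hB (n + 2); positivity
  have hPp : Function.Periodic (P B k) k := fun i => Finset.prod_congr rfl fun j _ => by
    rw [show i + k + 3 * j + 2 = i + 3 * j + 2 + k by ring, show i + k + 3 * j = i + 3 * j + k by ring,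
      hp, hp]
  have hP0 : ∀ i, 0 < P B k i := fun i => Finset.prod_pos fun j _ => hD _
  have ne : (Finset.range k).Nonempty := ⟨0, Finset.mem_range.mpr hk⟩
  constructor
  · intro h1 x hx
    obtain ⟨i1, -, m1⟩ := Finset.exists_min_image _ B ne
    obtain ⟨i2, -, m2⟩ := Finset.exists_max_image _ B ne
    obtain ⟨i3, -, m3⟩ := Finset.exists_min_image _ (P B k) ne
    have md : ∀ n, n % k ∈ Finset.range k := fun n => Finset.mem_range.mpr (Nat.mod_lt _ hk)
    have lo : ∀ n, B i1 ≤ B n := fun n => by rw [← hper.map_mod_nat n]; exact m1 _ (md n)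
    have hi : ∀ n, B n ≤ B i2 := fun n => by rw [← hper.map_mod_nat n]; exact m2 _ (md n)
    have lp : ∀ n, P B k i3 ≤ P B k n := fun n => by rw [← hPp.map_mod_nat n]; exact m3 _ (md n)
    have h3 := h1 i3
    set θ := ((P B k i3 + 1) / 2) ^ ((k : ℝ)⁻¹) with hθ
    have θ1 : 1 < θ := Real.one_lt_rpow (by linarith) (by positivity)
    have θk : θ ^ k = (P B k i3 + 1) / 2 := Real.rpow_inv_natCast_pow (by linarith) hk.ne'
    obtain ⟨K, K0, hK⟩ := upper (hB i1) lo hi θ1
    have blk : ∀ t : ℕ, ∃ C, ∀ m, x (m + 1 + 3 * t + 1) ≤ θ ^ t / P B t (m + 1) * x (m + 1 + 1) + C := by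
      intro t
      induction t with
      | zero => exact ⟨0, fun m => by simp [P]⟩
      | succ t ih =>
        obtain ⟨C, hC⟩ := ih
        refine ⟨θ / B i1 * max C 0 + K, fun m => ?_⟩
        have a := hK x hx (m + 3 * t)
        have b := hC m
        rw [show m + 3 * t + 1 = m + 1 + 3 * t by ring] at a
        rw [show m + 1 + 3 * (t + 1) + 1 = m + 1 + 3 * t + 4 by ring, P, Finset.prod_range_succ,
          ← P, pow_succ, ← div_mul_div_comm]
        have d0 := hD (m + 1 + 3 * t)
        have r0 : 0 ≤ θ / (B (m + 1 + 3 * t + 2) + 1 / B (m + 1 + 3 * t)) := by positivity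
        have r1 : θ / (B (m + 1 + 3 * t + 2) + 1 / B (m + 1 + 3 * t)) ≤ θ / B i1 := by
          have := lo (m + 1 + 3 * t + 2)
          have := one_div_pos.mpr (hB (m + 1 + 3 * t))
          exact div_le_div_of_nonneg_left (by linarith) (hB i1) (by linarith)
        generalize θ / (B (m + 1 + 3 * t + 2) + 1 / B (m + 1 + 3 * t)) = r at *
        have s1 := mul_le_mul_of_nonneg_left b r0
        have s2 := mul_le_mul_of_nonneg_left (le_max_left C 0) r0
        have s3 := mul_le_mul_of_nonneg_right r1 (le_max_right C 0)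
        nlinarith
    obtain ⟨C, hC⟩ := blk k
    set ρ := θ ^ k / P B k i3 with hρ
    have ρ1 : ρ < 1 := by rw [hρ, div_lt_one (hP0 _), θk]; linarith
    have ρ0 : 0 ≤ ρ := div_nonneg (by positivity) (hP0 _).le
    refine ⟨max (∑ m ∈ Finset.range (3 * k + 2), x m) (C / (1 - ρ)), fun n => ?_⟩
    induction n using Nat.strong_induction_on with
    | _ n ih =>
      by_cases hn : n < 3 * k + 2
      · exact le_max_of_le_left (Finset.single_le_sum (fun m _ => (pos hB hx m).le)
          (Finset.mem_range.mpr hn))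
      · obtain ⟨m, rfl⟩ : ∃ m, n = m + 1 + 3 * k + 1 := ⟨n - (3 * k + 2), by omega⟩
        have a := hC m
        have b := ih (m + 1 + 1) (by omega)
        have c : θ ^ k / P B k (m + 1) ≤ ρ :=
          div_le_div_of_nonneg_left (by positivity) (hP0 _) (lp _)
        have d : C ≤ max (∑ m ∈ Finset.range (3 * k + 2), x m) (C / (1 - ρ)) * (1 - ρ) := by
          rw [← div_le_iff₀ (by linarith)]; exact le_max_right _ _
        have e := mul_le_mul_of_nonneg_right c (pos hB hx (m + 1 + 1)).le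
        have f := mul_le_mul_of_nonneg_left b ρ0
        nlinarith
  · rintro ⟨i, hi⟩ x hx ⟨M, hM⟩
    obtain ⟨i1, -, m1⟩ := Finset.exists_min_image _ B ne
    obtain ⟨i2, -, m2⟩ := Finset.exists_max_image _ B ne
    have md : ∀ n, n % k ∈ Finset.range k := fun n => Finset.mem_range.mpr (Nat.mod_lt _ hk)
    have lo : ∀ n, B i1 ≤ B n := fun n => by rw [← hper.map_mod_nat n]; exact m1 _ (md n)
    have hi2 : ∀ n, B n ≤ B i2 := fun n => by rw [← hper.map_mod_nat n]; exact m2 _ (md n)
    have M0 : 0 < M := (pos hB hx 0).trans_le (hM 0)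
    have b1 := hB i1
    have b2 := hB i2
    set μ := 1 / (B i2 * M + M) with hμ
    have μ0 : 0 < μ := by positivity
    have low : ∀ n, μ ≤ x (n + 2) := fun n => by
      rw [hx.2.2]
      have := pos hB hx n
      have := pos hB hx (n + 1)
      have := hB n
      refine one_div_le_one_div_of_le (by positivity) (add_le_add ?_ (hM _))
      exact mul_le_mul (hi2 n) (hM _) (by positivity) b2.le
    set η := min (1 / 2) (min (μ * μ) (μ * (B i1 * μ))) with hη
    have η0 : 0 < η := by positivity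
    have η1 : 0 < 1 - η := by have := min_le_left (1 / 2) (min (μ * μ) (μ * (B i1 * μ))); linarith
    have lw : ∀ n, x (n + 2 + 1) ≤ (1 - η) * (B (n + 2 + 2) + 1 / B (n + 2)) * x (n + 2 + 4) := by
      intro n
      refine lower hB hx (n + 2) η (((min_le_right _ _).trans (min_le_left _ _)).trans ?_)
        (((min_le_right _ _).trans (min_le_right _ _)).trans ?_)
      · exact mul_le_mul (low (n + 2)) (low n) μ0.le (pos hB hx _).le
      · exact mul_le_mul (low (n + 3)) (mul_le_mul (lo _) (low (n + 2)) μ0.le (hB _).le)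
          (by positivity) (pos hB hx _).le
    have blk : ∀ m t : ℕ, x (m + 2 + 1) ≤ (1 - η) ^ t * P B t (m + 2) * x (m + 2 + 3 * t + 1) := by
      intro m t
      induction t with
      | zero => simp [P]
      | succ t ih =>
        have a := lw (m + 3 * t)
        rw [show m + 3 * t + 2 = m + 2 + 3 * t by ring] at a
        have p0 : 0 ≤ (1 - η) ^ t * P B t (m + 2) :=
          mul_nonneg (pow_pos η1 t).le (Finset.prod_pos fun j _ => hD _).le
        refine (ih.trans (mul_le_mul_of_nonneg_left a p0)).trans_eq ?_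
        rw [show m + 2 + 3 * (t + 1) + 1 = m + 2 + 3 * t + 4 by ring]
        simp only [P, Finset.prod_range_succ]
        ring
    obtain ⟨l, hl⟩ : ∃ l, l + 2 = i + 2 * k := ⟨i + 2 * k - 2, by omega⟩
    have ρ0 : 0 < (1 - η) ^ k := pow_pos η1 k
    have ρ1 : (1 - η) ^ k < 1 := pow_lt_one₀ η1.le (by linarith) hk.ne'
    have it : ∀ j : ℕ, x (l + 2 + 1) ≤ ((1 - η) ^ k) ^ j * x (l + 3 * k * j + 2 + 1) := by
      intro j
      induction j with
      | zero => simp
      | succ j ih =>
        have a := blk (l + 3 * k * j) k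
        have e : P B k (l + 3 * k * j + 2) = P B k i := by
          rw [show l + 3 * k * j + 2 = l + 2 + (3 * j) * k by ring, hl,
            show i + 2 * k + 3 * j * k = i + (2 + 3 * j) * k by ring]
          simpa using hPp.nsmul (2 + 3 * j) i
        rw [e, show l + 3 * k * j + 2 + 3 * k + 1 = l + 3 * k * (j + 1) + 2 + 1 by ring] at a
        rw [pow_succ, mul_assoc]
        refine ih.trans (mul_le_mul_of_nonneg_left (a.trans ?_) (pow_pos ρ0 j).le)
        exact mul_le_mul_of_nonneg_right (mul_le_of_le_one_right ρ0.le hi) (pos hB hx _).le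
    obtain ⟨j, hj⟩ := exists_pow_lt_of_lt_one (div_pos (pos hB hx (l + 2 + 1)) M0) ρ1
    rw [lt_div_iff₀ M0] at hj
    have := mul_le_mul_of_nonneg_left (hM (l + 3 * k * j + 2 + 1)) (pow_pos ρ0 j).le
    linarith [it j]

lemma coprime (k : ℕ) (hk : 0 < k) (h3 : ¬ 3 ∣ k) (B : ℕ → ℝ) (hB : ∀ n, 0 < B n)
    (hp : ∀ n, B (n + k) = B n) (i : ℕ) : 1 < P B k i := by
  let Q : ℕ → ℝ := fun i => ∏ j ∈ Finset.range k, B (i + 3 * j)
  have Q0 : ∀ i, 0 < Q i := fun i => Finset.prod_pos fun j _ => hB _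
  have Qk : Function.Periodic Q k := fun i => Finset.prod_congr rfl fun j _ => by
    rw [show i + k + 3 * j = i + 3 * j + k by ring, hp]
  have Q3 : Function.Periodic Q 3 := fun i => by
    have a := Finset.prod_range_succ (fun j => B (i + 3 * j)) k
    have b := Finset.prod_range_succ' (fun j => B (i + 3 * j)) k
    have c : B (i + 3 * k) = B (i + 3 * 0) := by
      rw [show i + 3 * k = i + 3 * 0 + k + k + k by ring, hp, hp, hp]
    rw [a, c] at b
    have d := mul_right_cancel₀ (hB _).ne' b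
    exact (Finset.prod_congr rfl fun j _ => by congr 1; ring).trans d.symm
  have Q2 : Q (i + 2) = Q i := by
    have e1 := Qk.nsmul 1 (i + 2)
    have e2 := Qk.nsmul 2 (i + 2)
    have e3 := Q3.nsmul ((k + 2) / 3) i
    have e4 := Q3.nsmul ((2 * k + 2) / 3) i
    simp only [smul_eq_mul] at e1 e2 e3 e4
    have : k % 3 = 1 ∨ k % 3 = 2 := by omega
    rcases this with h | h
    · rw [← e1, ← e3]; congr 1; omega
    · rw [← e2, ← e4]; congr 1; omega
  have h1 : ∏ j ∈ Finset.range k, (4 * (B (i + 2 + 3 * j) / B (i + 3 * j))) ≤ P B k i ^ 2 := by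
    rw [P, ← Finset.prod_pow]
    refine Finset.prod_le_prod (fun j _ => by have := hB (i + 2 + 3 * j); have := hB (i + 3 * j); positivity)
      fun j _ => ?_
    rw [show i + 2 + 3 * j = i + 3 * j + 2 by ring, div_eq_mul_one_div]
    nlinarith [sq_nonneg (B (i + 3 * j + 2) - 1 / B (i + 3 * j))]
  rw [Finset.prod_mul_distrib, Finset.prod_div_distrib] at h1
  have h2 : Q (i + 2) / Q i = 1 := by rw [Q2, div_self (Q0 i).ne']
  simp only [Q] at h2
  rw [h2, mul_one, Finset.prod_const, Finset.card_range] at h1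
  have h4 : (1 : ℝ) < 4 ^ k := one_lt_pow₀ (by norm_num) hk.ne'
  have h5 : 0 < P B k i := Finset.prod_pos fun j _ => by
    have := hB (i + 3 * j + 2); have := hB (i + 3 * j); positivity
  nlinarith

theorem result (k : ℕ) (hk : 0 < k) (B : ℕ → ℝ) (hB : ∀ n, 0 < B n) (hp : ∀ n, B (n + k) = B n)
    (x : ℕ → ℝ) (hx : Sol B x) :
    ((∃ M, ∀ n, x n ≤ M) ↔ ∀ i, 1 < P B k i) ∧ (¬ 3 ∣ k → ∃ M, ∀ n, x n ≤ M) := by
  refine ⟨⟨fun h i => ?_, fun h => (main k hk B hB hp).1 h x hx⟩,
    fun h3 => (main k hk B hB hp).1 (coprime k hk h3 B hB hp) x hx⟩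
  by_contra hi
  exact (main k hk B hB hp).2 ⟨i, not_lt.mp hi⟩ x hx h

end Pool.Agent.Results.MP_2c9a54_an.Product
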